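import Pool.Agent.X245.MJ.Defs

/-!
# Majority domination on complete multipartite graphs: reduction to arithmetic
-/

namespace Pool.Agent.X245.MJ

set_option autoImplicit false

open Finset

variable {m : ℕ} (n : Fin m → ℕ)

/-- number of satisfied vertices in a part -/
def sat (n : ℕ) (p w : ℤ) : ℤ :=
  (if p ≤ w then (n + p) / 2 else 0) + (if p ≤ w - 2 then (n - p) / 2 else 0)

/-- the graph -/
abbrev GG : SimpleGraph (Σ i : Fin m, Fin (n i)) :=
  SimpleGraph.completeMultipartiteGraph fun i : Fin m => Fin (n i)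

theorem closedSum_eq (f : (Σ i : Fin m, Fin (n i)) → ℤ) (i : Fin m) (x : Fin (n i)) :
    closedSum (GG n) f ⟨i, x⟩ = (∑ v, f v) - (∑ y, f ⟨i, y⟩) + f ⟨i, x⟩ := by
  classical
  unfold closedSum
  have h1 : ∀ v : (Σ i : Fin m, Fin (n i)), (v = ⟨i, x⟩ ∨ (GG n).Adj ⟨i, x⟩ v) ↔
      v = ⟨i, x⟩ ∨ v.1 ≠ i := by
    intro v
    change (v = ⟨i, x⟩ ∨ i ≠ v.1) ↔ _
    constructor
    · rintro (h | h)
      · exact Or.inl h
      · exact Or.inr (fun h' => h h'.symm)
    · rintro (h | h)
      · exact Or.inl h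
      · exact Or.inr (fun h' => h h'.symm)
  have h2 : (Finset.univ.filter fun v => v = ⟨i, x⟩ ∨ (GG n).Adj ⟨i, x⟩ v) =
      insert ⟨i, x⟩ (Finset.univ.filter fun v : (Σ i : Fin m, Fin (n i)) => v.1 ≠ i) := by
    ext v
    simp only [mem_filter, mem_univ, true_and, mem_insert]
    exact h1 v
  have h3 : ∑ v with v = ⟨i, x⟩ ∨ (GG n).Adj ⟨i, x⟩ v, f v =
      f ⟨i, x⟩ + ∑ v with v.1 ≠ i, f v := by
    rw [h2, sum_insert (by simp)]
  have h4 : (∑ v with v.1 = i, f v) + ∑ v with v.1 ≠ i, f v = ∑ v, f v :=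
    sum_filter_add_sum_filter_not _ _ _
  have h5 : (∑ v with v.1 = i, f v) = ∑ y, f ⟨i, y⟩ := by
    rw [sum_filter, Fintype.sum_sigma]
    rw [sum_eq_single i]
    · simp
    · intro j _ hj
      simp [hj]
    · simp
  refine Eq.trans (Finset.sum_congr ?_ fun _ _ => rfl) (h3.trans ?_)
  · ext v
    simp only [mem_filter]
  · linarith

theorem card_sat (f : (Σ i : Fin m, Fin (n i)) → ℤ) (hf : ∀ v, f v = 1 ∨ f v = -1) :
    ((Finset.univ.filter fun v => 1 ≤ closedSum (GG n) f v).card : ℤ) =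
      ∑ i, sat (n i) (∑ y, f ⟨i, y⟩) (∑ v, f v) := by
  classical
  rw [card_filter]
  push_cast
  rw [Fintype.sum_sigma]
  refine sum_congr rfl fun i _ => ?_
  set p := ∑ y, f ⟨i, y⟩ with hp
  set w := ∑ v, f v with hw
  have h1 : ∀ x : Fin (n i), (if 1 ≤ closedSum (GG n) f ⟨i, x⟩ then (1 : ℤ) else 0) =
      (if p ≤ w then 1 else 0) * ((1 + f ⟨i, x⟩) / 2) +
      (if p ≤ w - 2 then 1 else 0) * ((1 - f ⟨i, x⟩) / 2) := by
    intro x
    rw [closedSum_eq, ← hp, ← hw]
    rcases hf ⟨i, x⟩ with h | h <;> rw [h]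
    · by_cases h2 : p ≤ w <;> by_cases h3 : p ≤ w - 2 <;> simp [h2, h3] <;> omega
    · by_cases h2 : p ≤ w <;> by_cases h3 : p ≤ w - 2 <;> simp [h2, h3] <;> omega
  rw [sum_congr rfl fun x _ => h1 x, sum_add_distrib, ← mul_sum, ← mul_sum]
  have h2 : 2 * ∑ x : Fin (n i), (1 + f ⟨i, x⟩) / 2 = n i + p := by
    rw [mul_sum, hp]
    have : (n i : ℤ) = ∑ x : Fin (n i), (1 : ℤ) := by simp
    rw [this, ← sum_add_distrib]
    refine sum_congr rfl fun x _ => ?_
    rcases hf ⟨i, x⟩ with h | h <;> rw [h] <;> norm_num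
  have h3 : 2 * ∑ x : Fin (n i), (1 - f ⟨i, x⟩) / 2 = n i - p := by
    rw [mul_sum, hp]
    have : (n i : ℤ) = ∑ x : Fin (n i), (1 : ℤ) := by simp
    rw [this, ← sum_sub_distrib]
    refine sum_congr rfl fun x _ => ?_
    rcases hf ⟨i, x⟩ with h | h <;> rw [h] <;> norm_num
  unfold sat
  by_cases h4 : p ≤ w <;> by_cases h5 : p ≤ w - 2 <;> simp only [h4, h5, if_true, if_false] <;>
    omega

/-- The arithmetic form. -/
def Arith (k : ℤ) : Prop := ∃ p : Fin m → ℤ, (∀ i, -(n i : ℤ) ≤ p i ∧ p i ≤ n i ∧ 2 ∣ (n i : ℤ) - p i) ∧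
  ∑ i, p i ≤ k ∧ (∑ i, (n i : ℤ)) ≤ 2 * ∑ i, sat (n i) (p i) (∑ i, p i)

theorem card_V : (Fintype.card (Σ i : Fin m, Fin (n i)) : ℤ) = ∑ i, (n i : ℤ) := by
  rw [Fintype.card_sigma]
  push_cast
  simp

theorem sum_ones (N a : ℕ) (h : a ≤ N) :
    ∑ x : Fin N, (if x.val < a then (1 : ℤ) else -1) = 2 * a - N := by
  have h1 : ∀ x : Fin N, (if x.val < a then (1 : ℤ) else -1) =
      2 * (if x.val < a then 1 else 0) - 1 := by
    intro x; split_ifs <;> norm_num
  rw [sum_congr rfl fun x _ => h1 x, sum_sub_distrib, ← mul_sum]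
  have h2 : ∑ x : Fin N, (if x.val < a then (1 : ℤ) else 0) = a := by
    rw [Fin.sum_univ_eq_sum_range (fun x => if x < a then (1 : ℤ) else 0) N, ← sum_filter]
    have : (range N).filter (fun x => x < a) = range a := by
      ext x; rw [mem_filter, mem_range, mem_range]; omega
    rw [this]; simp
  rw [h2]; simp

theorem mdf_iff (k : ℤ) : (∃ f, IsMDF (GG n) f ∧ ∑ v, f v ≤ k) ↔ Arith n k := by
  classical
  constructor
  · rintro ⟨f, ⟨hf, hc⟩, hk⟩
    have hw : ∑ v, f v = ∑ i, ∑ y, f ⟨i, y⟩ := Fintype.sum_sigma _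
    refine ⟨fun i => ∑ y, f ⟨i, y⟩, ?_, ?_, ?_⟩
    · intro i
      have h0 : (n i : ℤ) = ∑ x : Fin (n i), (1 : ℤ) := by simp
      refine ⟨?_, ?_, ?_⟩
      · rw [h0, ← sum_neg_distrib]
        refine sum_le_sum fun x _ => ?_
        rcases hf ⟨i, x⟩ with h | h <;> rw [h]; norm_num
      · rw [h0]
        refine sum_le_sum fun x _ => ?_
        rcases hf ⟨i, x⟩ with h | h <;> rw [h]; norm_num
      · rw [h0, ← sum_sub_distrib]
        refine dvd_sum fun x _ => ?_
        rcases hf ⟨i, x⟩ with h | h <;> rw [h] <;> norm_num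
    · rw [← hw]; exact hk
    · have h1 := card_sat n f hf
      rw [hw] at h1
      rw [← h1, ← card_V]
      exact_mod_cast hc
  · rintro ⟨p, hp, hk, hs⟩
    have hf : ∀ v : (Σ i : Fin m, Fin (n i)),
        (fun v : (Σ i : Fin m, Fin (n i)) =>
          if v.2.val < ((n v.1 + p v.1) / 2).toNat then (1 : ℤ) else -1) v = 1 ∨
        (fun v : (Σ i : Fin m, Fin (n i)) =>
          if v.2.val < ((n v.1 + p v.1) / 2).toNat then (1 : ℤ) else -1) v = -1 := by
      intro v
      simp only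
      split_ifs <;> simp
    set f : (Σ i : Fin m, Fin (n i)) → ℤ :=
      fun v => if v.2.val < ((n v.1 + p v.1) / 2).toNat then (1 : ℤ) else -1 with hfd
    have hpi : ∀ i, ∑ y, f ⟨i, y⟩ = p i := by
      intro i
      obtain ⟨h1, h2, h3⟩ := hp i
      have h4 := sum_ones (n i) ((n i + p i) / 2).toNat (by omega)
      simp only [hfd]
      rw [h4]
      omega
    have hw : ∑ v, f v = ∑ i, p i := by
      rw [Fintype.sum_sigma]
      exact sum_congr rfl fun i _ => hpi i
    refine ⟨f, ⟨hf, ?_⟩, by rw [hw]; exact hk⟩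
    have h1 := card_sat n f hf
    rw [hw, sum_congr rfl fun i _ => by rw [hpi i]] at h1
    have h2 := card_V n
    have h3 : (Fintype.card (Σ i : Fin m, Fin (n i)) : ℤ) ≤
        2 * ((Finset.univ.filter fun v => 1 ≤ closedSum (GG n) f v).card : ℤ) := by
      rw [h1, h2]; exact hs
    exact_mod_cast h3

/-- splitting a number -/
theorem exists_sum {ι : Type} (s : Finset ι) (d : ι → ℕ) (E : ℕ) (h : E ≤ ∑ i ∈ s, d i) :
    ∃ e : ι → ℕ, (∀ i, e i ≤ d i) ∧ ∑ i ∈ s, e i = E := by
  classical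
  induction s using Finset.induction_on generalizing E with
  | empty => exact ⟨fun _ => 0, fun _ => Nat.zero_le _, by simpa using (Nat.le_zero.1 (by simpa using h)).symm⟩
  | insert a s ha ih =>
    rw [sum_insert ha] at h
    obtain ⟨e, he, hsum⟩ := ih (E - min E (d a)) (by omega)
    refine ⟨fun i => if i = a then min E (d a) else e i, ?_, ?_⟩
    · intro i
      simp only
      split_ifs with h1
      · subst h1; exact min_le_right _ _
      · exact he i
    · rw [sum_insert ha, if_pos rfl]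
      have : ∑ i ∈ s, (if i = a then min E (d a) else e i) = ∑ i ∈ s, e i := by
        refine sum_congr rfl fun i hi => ?_
        rw [if_neg (by rintro rfl; exact ha hi)]
      rw [this, hsum]
      omega

/-- intermediate values -/
theorem exists_between (L U : Fin m → ℤ) (hLU : ∀ i, L i ≤ U i ∧ 2 ∣ U i - L i) (w : ℤ)
    (h1 : ∑ i, L i ≤ w) (h2 : w ≤ ∑ i, U i) (h3 : 2 ∣ ∑ i, U i - w) :
    ∃ p : Fin m → ℤ, (∀ i, L i ≤ p i ∧ p i ≤ U i ∧ 2 ∣ U i - p i) ∧ ∑ i, p i = w := by
  have hsum : ∑ i, U i - ∑ i, L i = 2 * ((∑ i, ((U i - L i) / 2).toNat : ℕ) : ℤ) := by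
    push_cast
    rw [mul_sum, ← sum_sub_distrib]
    refine sum_congr rfl fun i _ => ?_
    have := hLU i
    omega
  obtain ⟨e, he, hes⟩ := exists_sum Finset.univ (fun i => ((U i - L i) / 2).toNat)
    ((∑ i, U i - w) / 2).toNat (by omega)
  refine ⟨fun i => U i - 2 * e i, ?_, ?_⟩
  · intro i
    have := he i
    have := hLU i
    simp only
    omega
  · rw [sum_sub_distrib, ← mul_sum]
    have : ((∑ i, e i : ℕ) : ℤ) = (((∑ i, U i - w) / 2).toNat : ℤ) := by rw [hes]
    push_cast at this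
    omega

theorem arith_one (hpos : ∀ i, 0 < n i) (hodd : ¬ 2 ∣ ∑ i, (n i : ℤ)) : Arith n 1 := by
  have hmod : ∀ i, 2 ∣ (n i : ℤ) - (n i : ℤ) % 2 := fun i => by omega
  have hsm : 2 ∣ (∑ i, (n i : ℤ)) - ∑ i, (n i : ℤ) % 2 := by
    rw [← sum_sub_distrib]; exact dvd_sum fun i _ => hmod i
  have hnn : 0 ≤ ∑ i, (n i : ℤ) % 2 := sum_nonneg fun i _ => by omega
  obtain ⟨p, hp, hsum⟩ := exists_between (fun i => -((n i : ℤ) % 2)) (fun i => (n i : ℤ) % 2)
    (fun i => by omega) 1 (by rw [sum_neg_distrib]; omega) (by omega) (by omega)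
  refine ⟨p, fun i => ?_, hsum.le, ?_⟩
  · have := hp i; have := hpos i; omega
  · rw [hsum, mul_sum]
    refine sum_le_sum fun i _ => ?_
    have := hp i
    have := hpos i
    unfold sat
    split_ifs <;> omega

theorem arith_two (hpos : ∀ i, 0 < n i) (hm : 0 < m) : Arith n 2 := by
  by_cases hodd : 2 ∣ ∑ i, (n i : ℤ)
  · have hmod : ∀ i, 2 ∣ (n i : ℤ) - (n i : ℤ) % 2 := fun i => by omega
    have hsm : 2 ∣ (∑ i, (n i : ℤ)) - ∑ i, (n i : ℤ) % 2 := by
      rw [← sum_sub_distrib]; exact dvd_sum fun i _ => hmod i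
    have hnn : 0 ≤ ∑ i, (n i : ℤ) % 2 := sum_nonneg fun i _ => by omega
    by_cases h0 : ∑ i, (n i : ℤ) % 2 = 0
    · have hev : ∀ i, (n i : ℤ) % 2 = 0 := fun i =>
        (sum_eq_zero_iff_of_nonneg (fun i _ => by omega)).1 h0 i (mem_univ i)
      have hs : ∑ i, (if i = (⟨0, hm⟩ : Fin m) then (2 : ℤ) else 0) = 2 := by simp
      obtain ⟨p, hp⟩ : ∃ p : Fin m → ℤ, ∀ i, p i = if i = ⟨0, hm⟩ then 2 else 0 :=
        ⟨_, fun _ => rfl⟩
      have hsp : ∑ i, p i = 2 := by rw [sum_congr rfl fun i _ => hp i]; exact hs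
      refine ⟨p, fun i => ?_, hsp.le, ?_⟩
      · have := hev i; have := hpos i; have := hp i
        split_ifs at this <;> omega
      · rw [hsp, mul_sum]
        refine sum_le_sum fun i _ => ?_
        have := hev i; have := hpos i
        have h2 := hp i
        unfold sat
        split_ifs at h2 ⊢ <;> omega
    · obtain ⟨p, hp, hsum⟩ := exists_between (fun i => -((n i : ℤ) % 2)) (fun i => (n i : ℤ) % 2)
        (fun i => by omega) 2 (by rw [sum_neg_distrib]; omega) (by omega) (by omega)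
      refine ⟨p, fun i => ?_, hsum.le, ?_⟩
      · have := hp i; have := hpos i; omega
      · rw [hsum, mul_sum]
        refine sum_le_sum fun i _ => ?_
        have := hp i
        have := hpos i
        unfold sat
        split_ifs <;> omega
  · obtain ⟨p, h1, h2, h3⟩ := arith_one n hpos hodd
    exact ⟨p, h1, by omega, h3⟩

/-- the resource of an option -/
def X (n c : ℕ) : ℕ :=
  if c = 0 then n + 3 else if c = 1 then (if n % 2 = 0 then 3 else 2)
  else (if n % 2 = 0 then 1 else 0)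

/-- the gain of an option -/
def Y (n c : ℕ) : ℕ :=
  if c = 0 then 0 else if c = 1 then (if n % 2 = 0 then n else n - 1)
  else (if n = 1 then 0 else 2 * n)

theorem arith_iff (hpos : ∀ i, 0 < n i) (hm : 0 < m) (heven : 2 ∣ ∑ i, (n i : ℤ)) :
    Arith n 1 ↔ ∃ c : Fin m → ℕ, 3 * m ≤ ∑ i, X (n i) (c i) ∧ ∑ i, n i ≤ ∑ i, Y (n i) (c i) := by
  have hNpos : 0 < ∑ i, (n i : ℤ) :=
    sum_pos (fun i _ => by have := hpos i; omega) ⟨⟨0, hm⟩, mem_univ _⟩
  constructor
  · rintro ⟨p, hp, hw1, hs⟩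
    set w := ∑ i, p i with hw
    have hw2 : 2 ∣ w := by
      have : 2 ∣ (∑ i, (n i : ℤ)) - w := by
        rw [hw, ← sum_sub_distrib]; exact dvd_sum fun i _ => (hp i).2.2
      omega
    have hw0 : w ≤ 0 := by omega
    set c : Fin m → ℕ := fun i => if p i ≤ w - 2 then 2 else if p i ≤ w then 1 else 0 with hc
    have hcc : ∀ i, (p i ≤ w - 2 ∧ c i = 2) ∨ (w - 2 < p i ∧ p i ≤ w ∧ c i = 1) ∨
        (w < p i ∧ c i = 0) := by
      intro i
      simp only [hc]
      split_ifs <;> omega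
    have hY : ∀ i, 2 * sat (n i) (p i) w ≤ (Y (n i) (c i) : ℤ) := by
      intro i
      have := hp i
      have := hpos i
      rcases hcc i with ⟨h1, h2⟩ | ⟨h1, h3, h2⟩ | ⟨h1, h2⟩ <;> rw [h2] <;> unfold sat Y <;>
        simp only [OfNat.ofNat_ne_zero, OfNat.ofNat_ne_one, one_ne_zero, if_true, if_false] <;>
        split_ifs <;> omega
    have hX : ∀ i, p i + (if c i = 0 then 0 else -w) ≤ (X (n i) (c i) : ℤ) - 3 := by
      intro i
      have := hp i
      have := hpos i
      rcases hcc i with ⟨h1, h2⟩ | ⟨h1, h3, h2⟩ | ⟨h1, h2⟩ <;> rw [h2] <;> unfold X <;>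
        simp only [OfNat.ofNat_ne_zero, OfNat.ofNat_ne_one, one_ne_zero, if_true, if_false]
      · split_ifs <;> omega
      · split_ifs <;> omega
      · omega
    refine ⟨c, ?_, ?_⟩
    · have h1 : ∑ i, (p i + (if c i = 0 then 0 else -w)) ≤ ∑ i, ((X (n i) (c i) : ℤ) - 3) :=
        sum_le_sum fun i _ => hX i
      rw [sum_add_distrib, sum_sub_distrib, ← hw] at h1
      have h2 : ∃ i, c i ≠ 0 := by
        by_contra hcon
        push Not at hcon
        have : ∑ i, sat (n i) (p i) w ≤ 0 := by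
          refine sum_nonpos fun i _ => ?_
          have h3 := hY i
          have h4 : Y (n i) (c i) = 0 := by rw [hcon i]; rfl
          rw [h4] at h3
          push_cast at h3
          omega
        omega
      obtain ⟨i, hi⟩ := h2
      have h3 : -w ≤ ∑ i, (if c i = 0 then (0 : ℤ) else -w) := by
        have := single_le_sum (f := fun i => (if c i = 0 then (0 : ℤ) else -w))
          (fun i _ => by split_ifs <;> omega) (mem_univ i)
        simp only [if_neg hi] at this
        exact this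
      have h4 : ∑ _i : Fin m, (3 : ℤ) = 3 * m := by simp [mul_comm]
      rw [h4] at h1
      have h5 : (3 * m : ℤ) ≤ ((∑ i, X (n i) (c i) : ℕ) : ℤ) := by push_cast; omega
      exact_mod_cast h5
    · have h1 : 2 * ∑ i, sat (n i) (p i) w ≤ ((∑ i, Y (n i) (c i) : ℕ) : ℤ) := by
        rw [mul_sum]; push_cast; exact sum_le_sum fun i _ => hY i
      have h2 : ((∑ i, n i : ℕ) : ℤ) ≤ ((∑ i, Y (n i) (c i) : ℕ) : ℤ) := by
        push_cast at *; omega
      exact_mod_cast h2
  · rintro ⟨c, hX, hY⟩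
    set U : Fin m → ℤ := fun i => if c i = 0 then n i else if c i = 1 then -((n i : ℤ) % 2)
      else if n i = 1 then -1 else (if n i % 2 = 0 then -2 else -3) with hU
    have hUX : ∀ i, (X (n i) (c i) : ℤ) - 3 ≤ U i := by
      intro i
      have := hpos i
      simp only [hU]
      unfold X
      split_ifs <;> omega
    have hUL : ∀ i, -(n i : ℤ) ≤ U i ∧ U i ≤ n i ∧ 2 ∣ U i - -(n i : ℤ) := by
      intro i
      have := hpos i
      simp only [hU]
      split_ifs <;> omega
    have hsU : 0 ≤ ∑ i, U i := by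
      have h1 : ∑ i, ((X (n i) (c i) : ℤ) - 3) ≤ ∑ i, U i := sum_le_sum fun i _ => hUX i
      rw [sum_sub_distrib] at h1
      have h4 : ∑ _i : Fin m, (3 : ℤ) = 3 * m := by simp [mul_comm]
      rw [h4] at h1
      have h5 : (3 * m : ℤ) ≤ ((∑ i, X (n i) (c i) : ℕ) : ℤ) := by exact_mod_cast hX
      push_cast at h5
      omega
    have hpar : 2 ∣ ∑ i, U i := by
      have h1 : 2 ∣ ∑ i, U i - ∑ i, -(n i : ℤ) := by
        rw [← sum_sub_distrib]; exact dvd_sum fun i _ => (hUL i).2.2
      rw [sum_neg_distrib] at h1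
      omega
    obtain ⟨p, hp, hsum⟩ := exists_between (fun i => -(n i : ℤ)) U
      (fun i => ⟨(hUL i).1.trans le_rfl, (hUL i).2.2⟩) 0
      (by rw [sum_neg_distrib]; omega) hsU (by simpa using hpar)
    refine ⟨p, fun i => ?_, by rw [hsum]; norm_num, ?_⟩
    · have h1 := hp i; have h2 := hUL i; omega
    · rw [hsum, mul_sum]
      have h1 : ∑ i, (n i : ℤ) ≤ ((∑ i, Y (n i) (c i) : ℕ) : ℤ) := by exact_mod_cast hY
      refine h1.trans ?_
      push_cast
      refine sum_le_sum fun i _ => ?_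
      have h1 := hp i
      have h2 := hpos i
      simp only [hU] at h1
      unfold sat Y
      split_ifs at h1 ⊢ <;> omega

/-- best gain plus one, zero if impossible -/
def best : List ℕ → ℕ → ℕ
  | [], r => if r = 0 then 1 else 0
  | n :: l, r => max (if best l (r - X n 0) = 0 then 0 else best l (r - X n 0) + Y n 0)
      (max (if best l (r - X n 1) = 0 then 0 else best l (r - X n 1) + Y n 1)
        (if best l (r - X n 2) = 0 then 0 else best l (r - X n 2) + Y n 2))

theorem XY_big (n c : ℕ) (hc : 2 ≤ c) : X n c = X n 2 ∧ Y n c = Y n 2 := by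
  have h0 : c ≠ 0 := by omega
  have h1 : c ≠ 1 := by omega
  simp [X, Y, h0, h1]

theorem best_iff (l : List ℕ) (r y : ℕ) : y < best l r ↔
    ∃ c : Fin l.length → ℕ, r ≤ ∑ i, X (l.get i) (c i) ∧ y ≤ ∑ i, Y (l.get i) (c i) := by
  induction l generalizing r y with
  | nil =>
    unfold best
    constructor
    · intro h
      refine ⟨fun _ => 0, ?_, ?_⟩
      · split_ifs at h with h1
        · omega
        · omega
      · split_ifs at h with h1
        · omega
        · omega
    · rintro ⟨c, h1, h2⟩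
      have e1 : ∑ i : Fin ([] : List ℕ).length, X (([] : List ℕ).get i) (c i) = 0 :=
        Fin.sum_univ_zero _
      have e2 : ∑ i : Fin ([] : List ℕ).length, Y (([] : List ℕ).get i) (c i) = 0 :=
        Fin.sum_univ_zero _
      rw [e1] at h1
      rw [e2] at h2
      rw [if_pos (by omega)]
      omega
  | cons n l ih =>
    have key : ∀ c0, (y < if best l (r - X n c0) = 0 then 0 else best l (r - X n c0) + Y n c0) ↔
        ∃ c : Fin l.length → ℕ, r ≤ X n c0 + ∑ i, X (l.get i) (c i) ∧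
          y ≤ Y n c0 + ∑ i, Y (l.get i) (c i) := by
      intro c0
      constructor
      · intro h
        split_ifs at h with h0
        · omega
        · obtain ⟨c, hc1, hc2⟩ := (ih (r - X n c0) (best l (r - X n c0) - 1)).1 (by omega)
          exact ⟨c, by omega, by omega⟩
      · rintro ⟨c, hc1, hc2⟩
        have h1 := (ih (r - X n c0) (y - Y n c0)).2 ⟨c, by omega, by omega⟩
        rw [if_neg (by omega)]
        omega
    have hex : (∃ c : Fin (n :: l).length → ℕ, r ≤ ∑ i, X ((n :: l).get i) (c i) ∧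
        y ≤ ∑ i, Y ((n :: l).get i) (c i)) ↔
        ∃ c0, ∃ c : Fin l.length → ℕ, r ≤ X n c0 + ∑ i, X (l.get i) (c i) ∧
          y ≤ Y n c0 + ∑ i, Y (l.get i) (c i) := by
      constructor
      · rintro ⟨c, h1, h2⟩
        refine ⟨c 0, fun i => c i.succ, ?_, ?_⟩
        · have := Fin.sum_univ_succ (n := l.length) (fun i => X ((n :: l).get i) (c i))
          exact h1.trans_eq this
        · have := Fin.sum_univ_succ (n := l.length) (fun i => Y ((n :: l).get i) (c i))
          exact h2.trans_eq this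
      · rintro ⟨c0, c, h1, h2⟩
        refine ⟨Fin.cons c0 c, ?_, ?_⟩
        · have := Fin.sum_univ_succ (n := l.length)
            (fun i => X ((n :: l).get i) ((Fin.cons c0 c : Fin (l.length + 1) → ℕ) i))
          exact h1.trans_eq (by simpa using this.symm)
        · have := Fin.sum_univ_succ (n := l.length)
            (fun i => Y ((n :: l).get i) ((Fin.cons c0 c : Fin (l.length + 1) → ℕ) i))
          exact h2.trans_eq (by simpa using this.symm)
    rw [hex]
    unfold best
    rw [lt_max_iff, lt_max_iff, key, key, key]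
    constructor
    · rintro (h | h | h)
      · exact ⟨0, h⟩
      · exact ⟨1, h⟩
      · exact ⟨2, h⟩
    · rintro ⟨c0, h⟩
      rcases Nat.lt_or_ge c0 2 with h2 | h2
      · interval_cases c0
        · exact Or.inl h
        · exact Or.inr (Or.inl h)
      · have := XY_big n c0 h2
        rw [this.1, this.2] at h
        exact Or.inr (Or.inr h)

/-- the decision procedure -/
def dec (x : List ℕ × ℕ) : Bool :=
  !x.1.isEmpty && (x.1.all fun n => decide (0 < n)) && decide (0 < x.2) &&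
    (decide (2 ≤ x.2) || decide (x.1.sum % 2 = 1) ||
      decide (x.1.sum < best x.1 (3 * x.1.length)))

theorem dec_iff (x : List ℕ × ℕ) : MajCMP x ↔ dec x = true := by
  obtain ⟨l, k⟩ := x
  unfold MajCMP dec
  simp only [Bool.and_eq_true, Bool.or_eq_true, decide_eq_true_eq, List.all_eq_true,
    Bool.not_eq_true', List.isEmpty_eq_false_iff]
  rw [and_assoc, and_assoc]
  refine and_congr_right fun hne => and_congr_right fun hpos => and_congr_right fun hk => ?_
  have hpos' : ∀ i : Fin l.length, 0 < l.get i := fun i => hpos _ (List.get_mem _ _)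
  have hm : 0 < l.length := List.length_pos_iff.2 hne
  have hsum : l.sum = ∑ i : Fin l.length, l.get i := by
    simp [List.sum_ofFn.symm]
  have h1 : (∃ f, IsMDF (CMP l) f ∧ ∑ v, f v ≤ (k : ℤ)) ↔ Arith (fun i => l.get i) k :=
    mdf_iff (fun i => l.get i) k
  rw [h1]
  have hmono : ∀ a b : ℤ, a ≤ b → Arith (fun i => l.get i) a → Arith (fun i => l.get i) b := by
    rintro a b hab ⟨p, h2, h3, h4⟩
    exact ⟨p, h2, h3.trans hab, h4⟩
  by_cases hk2 : 2 ≤ k
  · exact ⟨fun _ => Or.inl (Or.inl hk2), fun _ => hmono 2 k (by exact_mod_cast hk2)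
      (arith_two _ hpos' hm)⟩
  · have hk1 : k = 1 := by omega
    subst hk1
    by_cases hodd : l.sum % 2 = 1
    · refine ⟨fun _ => Or.inl (Or.inr hodd), fun _ => ?_⟩
      refine arith_one _ hpos' ?_
      have h3 : ((l.sum : ℕ) : ℤ) = ∑ i : Fin l.length, ((l.get i : ℕ) : ℤ) := by
        rw [hsum]; push_cast; rfl
      rw [← h3]
      omega
    · have h3 : ((l.sum : ℕ) : ℤ) = ∑ i : Fin l.length, ((l.get i : ℕ) : ℤ) := by
        rw [hsum]; push_cast; rfl
      have h6 : 2 ∣ ((l.sum : ℕ) : ℤ) := by omega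
      rw [h3] at h6
      have h4 := arith_iff (fun i => l.get i) hpos' hm h6
      rw [best_iff]
      have h5 : Arith (fun i => l.get i) ((1 : ℕ) : ℤ) ↔ _ := h4
      rw [h5, hsum]
      constructor
      · exact fun h => Or.inr h
      · rintro ((h | h) | h)
        · omega
        · omega
        · exact h

end Pool.Agent.X245.MJ
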