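import Pool.Agent.NPC.Defs

/-!
# Majority domination on complete multipartite graphs: definitions
-/

namespace Pool.Agent.X245.MJ

set_option autoImplicit false

open Classical in
/-- `f(N[v])`, the sum of `f` over the closed neighbourhood of `v`. -/
noncomputable def closedSum {V : Type} [Fintype V] (G : SimpleGraph V) (f : V → ℤ) (v : V) : ℤ :=
  ∑ u with u = v ∨ G.Adj v u, f u

open Classical in
/-- `f` is a majority dominating function: its values are `1` and `-1`, and `f(N[v]) ≥ 1` for at
least half of the vertices `v`. -/
def IsMDF {V : Type} [Fintype V] (G : SimpleGraph V) (f : V → ℤ) : Prop :=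
  (∀ v, f v = 1 ∨ f v = -1) ∧
    Fintype.card V ≤ 2 * (Finset.univ.filter fun v => 1 ≤ closedSum G f v).card

/-- The complete multipartite graph with the part sizes in the list `l`. -/
abbrev CMP (l : List ℕ) : SimpleGraph (Σ i : Fin l.length, Fin (l.get i)) :=
  SimpleGraph.completeMultipartiteGraph fun i : Fin l.length => Fin (l.get i)

/-- The decision problem `MAJ-CMP`: the input consists of a non-empty list of positive part sizes
and a positive integer `k`; does the complete multipartite graph have a majority dominating
function of weight at most `k`? -/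
def MajCMP (x : List ℕ × ℕ) : Prop :=
  x.1 ≠ [] ∧ (∀ n ∈ x.1, 0 < n) ∧ 0 < x.2 ∧ ∃ f, IsMDF (CMP x.1) f ∧ ∑ v, f v ≤ x.2

end Pool.Agent.X245.MJ
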