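import Pool.Agent.X245.MJ.Comb
import Pool.Agent.X245.Util

/-!
# MAJ-CMP is in P
-/

namespace Pool.Agent.X245.MJ

open Pool.Agent.NPC

set_option autoImplicit false

/-- entry -/
def ent (t : List ℕ) (n c r : ℕ) : ℕ :=
  if t.getD (r - X n c) 0 = 0 then 0 else t.getD (r - X n c) 0 + Y n c

/-- one step of the table -/
def tstep (N n : ℕ) (t : List ℕ) : List ℕ :=
  (List.range N).map fun r => max (ent t n 0 r) (max (ent t n 1 r) (ent t n 2 r))

/-- the table -/
def tbl (N : ℕ) (l : List ℕ) : List ℕ :=
  l.foldr (tstep N) ((List.range N).map fun r => if r = 0 then 1 else 0)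

theorem tbl_eq (N : ℕ) (l : List ℕ) : tbl N l = (List.range N).map (best l) := by
  induction l with
  | nil => rfl
  | cons n l ih =>
    have e : tbl N (n :: l) = tstep N n (tbl N l) := rfl
    rw [e, ih]
    unfold tstep
    refine List.map_congr_left fun r hr => ?_
    have hr := List.mem_range.1 hr
    have h : ∀ c, ent ((List.range N).map (best l)) n c r =
        if best l (r - X n c) = 0 then 0 else best l (r - X n c) + Y n c := by
      intro c
      unfold ent
      have h1 : ((List.range N).map (best l)).getD (r - X n c) 0 = best l (r - X n c) := by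
        rw [List.getD_eq_getElem _ _ (by rw [List.length_map, List.length_range]; omega)]
        simp
      rw [h1]
    rw [h, h, h]
    rfl

theorem best_le (l : List ℕ) (r : ℕ) : best l r ≤ 1 + 2 * l.sum := by
  induction l generalizing r with
  | nil => unfold best; split_ifs <;> simp
  | cons n l ih =>
    have hY : ∀ c, Y n c ≤ 2 * n := by intro c; unfold Y; split_ifs <;> omega
    have h : ∀ c, (if best l (r - X n c) = 0 then 0 else best l (r - X n c) + Y n c) ≤
        1 + 2 * (n :: l).sum := by
      intro c
      have := ih (r - X n c)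
      have := hY c
      rw [List.sum_cons]
      split_ifs <;> omega
    unfold best
    exact max_le (h 0) (max_le (h 1) (h 2))

variable {α : Type} [TEnc α]

theorem poly_ent {t : α → List ℕ} {n r : α → ℕ} (c : ℕ) (ht : NPC.Poly t) (hn : NPC.Poly n)
    (hr : NPC.Poly r) : NPC.Poly (fun a => ent (t a) (n a) c (r a)) := by
  unfold ent X Y
  fun_prop

theorem poly_best : NPC.Poly (fun x : List ℕ × ℕ => best x.1 (3 * x.1.length)) := by
  have hU : UPoly (fun x : List ℕ × ℕ => 3 * x.1.length + 1) :=
    ((UPoly.const 3).mul (UPoly.length (NPC.Poly.fst NPC.Poly.id))).add (UPoly.const 1)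
  have h1 : NPC.Poly (fun x : List ℕ × ℕ => tbl (3 * x.1.length + 1) x.1) := by
    unfold tbl
    refine NPC.Poly.foldr (l := fun x : List ℕ × ℕ => x.1)
      (s := fun x => (List.range (3 * x.1.length + 1)).map fun r => if r = 0 then 1 else 0)
      (F := fun x n t => tstep (3 * x.1.length + 1) n t) (by fun_prop) ?_ ?_
      (Polynomial.X * (Polynomial.C 40 * Polynomial.X + Polynomial.C 40) +
        (Polynomial.C 40 * Polynomial.X + Polynomial.C 40)) ?_
    · refine NPC.Poly.map (F := fun (x : List ℕ × ℕ) r => if r = 0 then 1 else 0) hU.range ?_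
      fun_prop
    · unfold tstep
      refine NPC.Poly.map (l := fun p : (List ℕ × ℕ) × ℕ × List ℕ =>
        List.range (3 * p.1.1.length + 1))
        (F := fun (p : (List ℕ × ℕ) × ℕ × List ℕ) r =>
          max (ent p.2.2 p.2.1 0 r) (max (ent p.2.2 p.2.1 1 r) (ent p.2.2 p.2.1 2 r)))
        (hU.comp (NPC.Poly.fst NPC.Poly.id)).range ?_
      have ht : NPC.Poly (fun p : ((List ℕ × ℕ) × ℕ × List ℕ) × ℕ => p.1.2.2) := by fun_prop
      have hn : NPC.Poly (fun p : ((List ℕ × ℕ) × ℕ × List ℕ) × ℕ => p.1.2.1) := by fun_prop
      have hr : NPC.Poly (fun p : ((List ℕ × ℕ) × ℕ × List ℕ) × ℕ => p.2) := by fun_prop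
      exact NPC.Poly.max (poly_ent 0 ht hn hr) (NPC.Poly.max (poly_ent 1 ht hn hr)
        (poly_ent 2 ht hn hr))
    · intro x k hk
      have e : (x.1.drop k).foldr (fun n t => tstep (3 * x.1.length + 1) n t)
          ((List.range (3 * x.1.length + 1)).map fun r => if r = 0 then 1 else 0) =
          (List.range (3 * x.1.length + 1)).map (best (x.1.drop k)) := tbl_eq _ _
      rw [e]
      have hS : 1 + 2 * x.1.sum < 2 ^ (sz x + 2) := by
        have h2 : ∀ l : List ℕ, l.sum < 2 ^ sz l := by
          intro l
          induction l with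
          | nil => simp
          | cons a l ih =>
            have h3 := Nat.lt_size_self a
            have h4 := size_le_sz a
            have h5 : sz (a :: l) = sz a + sz l + 1 := by
              simp
            rw [List.sum_cons, h5]
            have h6 : a < 2 ^ sz a :=
              h3.trans_le (Nat.pow_le_pow_right (by norm_num) (by omega))
            have h7 : 1 ≤ 2 ^ sz a := Nat.one_le_two_pow
            have h8 : 1 ≤ 2 ^ sz l := Nat.one_le_two_pow
            rw [pow_succ, pow_add]
            nlinarith
        have h3 := h2 x.1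
        have h4 : sz x.1 ≤ sz x := by
          rcases x with ⟨l, k⟩; simp only [sz_pair]; omega
        have h5 : 2 ^ sz x.1 ≤ 2 ^ sz x := Nat.pow_le_pow_right (by norm_num) h4
        rw [pow_add]
        omega
      have hent : ∀ v ∈ (List.range (3 * x.1.length + 1)).map (best (x.1.drop k)),
          sz v ≤ 4 * (sz x + 2) + 1 := by
        intro v hv
        obtain ⟨r, _, rfl⟩ := List.mem_map.1 hv
        have h3 := best_le (x.1.drop k) r
        have h4 : (x.1.drop k).sum ≤ x.1.sum :=
          List.Sublist.sum_le_sum (List.drop_sublist _ _) (fun _ _ => Nat.zero_le _)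
        have h5 : (best (x.1.drop k) r).size ≤ sz x + 2 := by
          rw [Nat.size_le]; omega
        have h6 := sz_nat_le (best (x.1.drop k) r)
        omega
      have h7 := sz_le_length_mul _ _ hent
      rw [List.length_map, List.length_range] at h7
      have h8 : x.1.length ≤ sz x := by
        have h9 := length_lt_sz x.1
        have h10 : sz x.1 ≤ sz x := by
          rcases x with ⟨l, k⟩; simp only [sz_pair]; omega
        omega
      simp only [Polynomial.eval_add, Polynomial.eval_mul, Polynomial.eval_C, Polynomial.eval_X]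
      refine h7.trans ?_
      nlinarith
  refine (NPC.Poly.getD (l := fun x : List ℕ × ℕ => tbl (3 * x.1.length + 1) x.1)
    (n := fun x => 3 * x.1.length) (d := fun _ => 0) h1 (by fun_prop) (by fun_prop)).congr
    fun x => ?_
  rw [tbl_eq, List.getD_eq_getElem _ _ (by rw [List.length_map, List.length_range]; omega)]
  simp

theorem dec_poly : NPC.Poly dec := by
  unfold dec
  have := poly_best
  fun_prop

/-- MAJ-CMP is in P -/
theorem inPP_MajCMP : InPP MajCMP := inPP_of dec_poly dec_iff

end Pool.Agent.X245.MJ
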